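import Pool.Agent.Lib.MP_815ef6_nt.CS.Fin3

namespace Pool.Agent.Results.MP_815ef6_nt.Chain
open Pool.Agent.Lib.MP_815ef6_nt Pool.Agent.Lib.MP_815ef6_nt.Ch Polynomial Finset

/-- Q1 for the systems that, up to a rational gauge transformation and a twist by a radical, have
simple poles with residues `scalar + rank one` at points `a 0, ..., a r` such that
`0, a 0, ..., a r, ∞` degenerate to a chain, and no further poles outside `0, ∞`. -/
theorem result {n r : ℕ} (a : Fin (r + 1) → ℂ) (ha : ∀ i, a i ≠ 0)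
    (hv : ∀ f : MvPolynomial (Fin r) ℚ,
      MvPolynomial.aeval (fun j : Fin r => a j.castSucc / a j.succ) f = 0 →
        MvPolynomial.constantCoeff f = 0)
    (R : Fin (r + 1) → Matrix (Fin n) (Fin n) ℂ)
    (hR : ∀ i, ∃ c : ℂ, (R i - Matrix.scalar _ c).rank ≤ 1) (e : ℕ)
    (L : Matrix (Fin n) (Fin n) ℂ[X]) (A G H : Matrix (Fin n) (Fin n) (RatFunc ℂ))
    (hG : G * H = 1) (S : Finset ℂ) (q : ℂ → ℚ)
    (hM : H * A * G - H * G.map rder = sysM a R e L +
      Matrix.scalar _ (∑ c ∈ S, RatFunc.C (q c : ℂ) / (RatFunc.X - RatFunc.C c)))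
    (hA : Dormant A) (U : Set ℂ) (hU : IsOpen U)
    (hUA : ∀ z ∈ U, ∀ i j, (A i j).denom.eval z ≠ 0) (y : ℂ → Fin n → ℂ)
    (hy : ∀ z ∈ U, ∀ i, HasDerivAt (fun w => y w i)
      (∑ j, (A i j).eval (RingHom.id ℂ) z * y z j) z) (i : Fin n) :
    IsIntegralFn U fun z => y z i :=
  bd_integral (bd_of hG S q hM (bd_sys ha hv R e L hR) hA) hU hUA y hy i

end Pool.Agent.Results.MP_815ef6_nt.Chain
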