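import Pool.Agent.Lib.MP_815ef6_nt.Conv

namespace Pool.Agent.Results.MP_815ef6_nt.ChevalleyWeil
open Pool.Agent.Lib.MP_815ef6_nt Finset

/-- Chevalley-Weil inequality for systems of any rank whose `p`-curvature vanishes for almost all
primes, for every Galois conjugate `k · lam` of the local exponents. -/
theorem result (n : ℕ) (A : Matrix (Fin n) (Fin n) (RatFunc ℂ)) (S : Finset ℂ)
    (hS : IsPoleSet A S) (lam : Option ℂ → Fin n → ℚ)
    (hlam : ∀ x ∈ S.insertNone, Exponents A x (lam x))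
    (k : ℤ) (hk : ∀ x ∈ S.insertNone, ∀ j, IsCoprime k (lam x j).den)
    (s : Option ℂ → ℝ) (hs : 0 ≤ ∑ x ∈ S.insertNone, s x) (e : ℕ) (he : 1 ≤ e)
    (hlt : (e : ℝ) - 1 + ∑ x ∈ S.insertNone, ∑ j, Int.fract ((k : ℝ) * lam x j - s x) <
      n * (1 - ∑ x ∈ S.insertNone, s x))
    (hA : Dormant A) :
    ∑ x ∈ S.insertNone, s x = 0 ∧ ∃ μ : ℂ → ℚ,
      (∀ x ∈ S, (∃ j, μ x = lam (some x) j) ∧ ∃ m : ℤ, s (some x) = k * μ x + m) ∧
      ∃ v : Fin e → Fin n → RatFunc ℂ, LinearIndependent ℂ v ∧ ∀ a i,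
        rder (v a i) = ∑ j, A i j * v a j -
          (∑ x ∈ S, RatFunc.C (μ x : ℂ) / (RatFunc.X - RatFunc.C x)) * v a i := by
  classical
  obtain ⟨N, hN, hkN, hl⟩ := exists_den _ lam hk
  choose g hg using fun x : S => (hlam (some x) (some_mem_insertNone.mpr x.2)).gauge
  obtain ⟨h, hh⟩ := (hlam none none_mem_insertNone).gauge
  have hOS := fun i j => mem_OS_of_poles (f := A i j) fun z hz => (hS z).mpr ⟨i, j, hz⟩
  have he' : (1 : ℝ) ≤ e := by exact_mod_cast he
  have hl₁ := fun x : S => hl _ (some_mem_insertNone.mpr x.2)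
  obtain ⟨h0, h1, -⟩ := cw_tight Subtype.val_injective hA.dormI.1 hOS g h hg hh hN hkN hl₁
    (hl _ none_mem_insertNone) (fun x j => isI_up _ (s (some x))) (fun j => isI_up _ (s none))
    (s := fun x => s (some x)) (fun x j => le_up _ _) (fun j => le_up _ _) (by rwa [sum_s])
    (by rw [sum_up]; linarith)
  choose j₀ h1 using h1
  obtain ⟨v, hv, hv'⟩ := cw_sol Subtype.val_injective hA.dormI.1 hOS g h hg hh hN hkN hl₁
    (hl _ none_mem_insertNone) (fun x j => isI_up _ (s (some x))) (fun j => isI_up _ (s none))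
    (μ := fun x => lam (some x) (j₀ x)) (fun x => hl₁ x _) (fun x => isI_up _ (s (some x)))
    (fun x j => by rw [← Rat.cast_le (K := ℝ), ← h1]; exact le_up _ _) (fun j => le_up _ _)
    (by simp only [← h1]; exact h0.ge) (e := e) (by rw [add_assoc, sum_up]; linarith)
  refine ⟨by rwa [sum_s] at h0, fun x => if hx : x ∈ S then lam (some x) (j₀ ⟨x, hx⟩) else 0,
    fun x hx => ?_, v, hv, fun a i => ?_⟩
  · simp only [dif_pos hx]
    refine ⟨⟨_, rfl⟩, -⌊((k * lam (some x) (j₀ ⟨x, hx⟩) : ℚ) : ℝ) - s (some x)⌋, ?_⟩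
    have := h1 ⟨x, hx⟩
    rw [up] at this
    push_cast at this ⊢
    linarith
  · have h2 := congrFun (hv' a).1 i
    rw [Dop_sub_smul, Pi.add_apply, Dop_apply, dR_apply, Pi.smul_apply, smul_eq_mul, ell,
      Pi.zero_apply, Matrix.mulVec, dotProduct] at h2
    rw [← sum_coe_sort S]
    simp only [coe_mem, dite_true, Subtype.coe_eta, div_eq_mul_inv]
    simp only [am_C, tt] at h2
    linear_combination h2

end Pool.Agent.Results.MP_815ef6_nt.ChevalleyWeil
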