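import Pool.Agent.Lib.MP_815ef6_nt.Conv

namespace Pool.Agent.Results.MP_815ef6_nt.RankTwo
open Pool.Agent.Lib.MP_815ef6_nt Finset

/-- Q1 for systems of rank two with any number of regular singular points, when some Galois
conjugate `k · lam` of the local exponents violates the strict unitary polygon inequalities. -/
theorem result (A : Matrix (Fin 2) (Fin 2) (RatFunc ℂ)) (S : Finset ℂ) (hS : IsPoleSet A S)
    (lam : Option ℂ → Fin 2 → ℚ) (hlam : ∀ x ∈ S.insertNone, Exponents A x (lam x))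
    (k : ℤ) (hk : ∀ x ∈ S.insertNone, ∀ j, IsCoprime k (lam x j).den)
    (s : Option ℂ → ℝ) (hs : 0 ≤ ∑ x ∈ S.insertNone, s x)
    (hlt : ∑ x ∈ S.insertNone, ∑ j, Int.fract ((k : ℝ) * lam x j - s x) <
      2 * (1 - ∑ x ∈ S.insertNone, s x))
    (hA : Dormant A) (U : Set ℂ) (hU : IsOpen U)
    (hUA : ∀ z ∈ U, ∀ i j, (A i j).denom.eval z ≠ 0) (y : ℂ → Fin 2 → ℂ)
    (hy : ∀ z ∈ U, ∀ i, HasDerivAt (fun w => y w i)
      (∑ j, (A i j).eval (RingHom.id ℂ) z * y z j) z) (i : Fin 2) :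
    IsIntegralFn U fun z => y z i := by
  obtain ⟨N, hN, hkN, hl⟩ := exists_den _ lam hk
  choose g hg using fun x : S => (hlam (some x) (some_mem_insertNone.mpr x.2)).gauge
  obtain ⟨h, hh⟩ := (hlam none none_mem_insertNone).gauge
  have hOS := fun i j => mem_OS_of_poles (f := A i j) fun z hz => (hS z).mpr ⟨i, j, hz⟩
  obtain ⟨μ, τ, v, r, c, h1, h2, h3, h4, h5, h6, h7, h8, h9⟩ := split_two Subtype.val_injective hA
    hOS g h hg hh hN hkN (fun x => hl _ (some_mem_insertNone.mpr x.2)) (hl _ none_mem_insertNone)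
    (fun x j => isI_up _ (s (some x))) (fun j => isI_up _ (s none)) (s := fun x => s (some x))
    (fun x j => le_up _ _) (fun j => le_up _ _) (fun x j => up_lt _ _) (fun j => up_lt _ _)
    (by rwa [sum_s]) (by rw [sum_up]; push_cast; linarith)
  refine integral_of_split hU (fun x hx => ?_) hOS hN h1 h2 h3 h4 h5 h6 h7 h8 h9
    (fun z hz i => ?_) i
  · obtain ⟨i, j, hij⟩ := (hS x).mp x.2
    exact hUA x hx i j hij
  · simpa only [fun j => evv_eq_eval (hUA z hz i j)] using hy z hz i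

end Pool.Agent.Results.MP_815ef6_nt.RankTwo
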