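import Pool.Agent.Lib.MP_815ef6_nt.CT.Fin

namespace Pool.Agent.Results.MP_815ef6_nt.Tree
open Pool.Agent.Lib.MP_815ef6_nt Pool.Agent.Lib.MP_815ef6_nt.Ch Polynomial Finset

/-- Q1 for the systems of rank two that, up to a rational gauge transformation and a twist by a
radical, have their finite poles (of any order) in a set `S` such that `S ∪ {∞}` degenerates to a
trivalent tree for a valuation of `ℂ` which is trivial on `ℚ`. -/
theorem result (S : Finset ℂ) (V : ValuationSubring ℂ) (hV : ∀ q : ℚ, (q : ℂ) ∈ V)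
    (hS : ∀ a ∈ S, ∀ b ∈ S, ∀ c ∈ S, a ≠ b → V.valuation (a - b) = V.valuation (b - c) →
      V.valuation (a - b) ≠ V.valuation (a - c))
    (A G H M : Matrix (Fin 2) (Fin 2) (RatFunc ℂ)) (hG : G * H = 1) (S₀ : Finset ℂ) (q : ℂ → ℚ)
    (hM : H * A * G - H * G.map rder = M +
      Matrix.scalar _ (∑ c ∈ S₀, RatFunc.C (q c : ℂ) / (RatFunc.X - RatFunc.C c)))
    (hP : ∀ i j z, (M i j).denom.eval z = 0 → z ∈ S)
    (hA : Dormant A) (U : Set ℂ) (hU : IsOpen U)
    (hUA : ∀ z ∈ U, ∀ i j, (A i j).denom.eval z ≠ 0) (y : ℂ → Fin 2 → ℂ)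
    (hy : ∀ z ∈ U, ∀ i, HasDerivAt (fun w => y w i)
      (∑ j, (A i j).eval (RingHom.id ℂ) z * y z j) z) (i : Fin 2) :
    IsIntegralFn U fun z => y z i :=
  bd_integral (bd_of hG S₀ q hM (bd_tree V hV S hS hP) hA) hU hUA y hy i

end Pool.Agent.Results.MP_815ef6_nt.Tree
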